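import Pool.Agent.Lib.MP_7e112f_co.DP

/-!
# MP_7e112f_co: the cost of a tree in terms of its size and of its number of ears

`ee t` is the number of nodes of the tree `t` with two leaves as children. We show
`5 * cost t a b + 8 ≤ sz t + 2 * ee t + D5 (ty t) a b`, where `ty t` is one of ten types and `D5` is
a fixed table.
-/

namespace MP7e112f

open BT

/-- The number of nodes whose children are two leaves. -/
def ee : BT → ℕ
  | leaf => 0
  | node l r => (if l = leaf ∧ r = leaf then 1 else 0) + ee l + ee r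

/-- The table of the types. -/
def D5 (s a b : ℕ) : ℕ := (828919779595116556906612419263437878270746611237342043208838198547363504069690274148890514622361333358446535 >>> (4 * (9 * s + 3 * a + b))) % 16

/-- The table of the transitions. -/
def T5 (s t : ℕ) : ℕ := (172150051506654094422867358373449085476592374601749158846867083817269280413450978153413738425740865871416405139601511457 >>> (4 * (10 * s + t))) % 16

/-- The type of a tree. -/
def ty : BT → ℕ
  | leaf => 0
  | node l r => T5 (ty l) (ty r)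

theorem T5_check : ∀ s < 10, ∀ t < 10, (0 < T5 s t ∧ T5 s t < 10) ∧
    ∀ a < 3, ∀ b < 3, cmpo (D5 s) (D5 t) a b ≤
      D5 (T5 s t) a b + 8 + (if s = 0 ∧ t = 0 then 2 else 0) := by
  decide +kernel

theorem D5_fin : ∀ s < 10, s ≠ 0 → D5 s 0 0 ≤ 9 ∨ D5 s 2 2 + 5 ≤ 9 := by
  decide +kernel

theorem ty_lt : ∀ t, ty t < 10 ∧ (ty t = 0 ↔ t = leaf)
  | leaf => by simp [ty]
  | node l r => by
      have h := (T5_check (ty l) (ty_lt l).1 (ty r) (ty_lt r).1).1
      refine ⟨h.2, fun h0 => ?_, fun h0 => ?_⟩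
      · change T5 (ty l) (ty r) = 0 at h0
        omega
      · exact absurd h0 (by simp)

theorem raw_bound5 {c d C D : ℕ → ℕ → ℕ} {X Y : ℕ}
    (hc : ∀ a < 3, ∀ b < 3, 5 * c a b + 8 ≤ X + C a b)
    (hd : ∀ a < 3, ∀ b < 3, 5 * d a b + 8 ≤ Y + D a b) :
    ∀ a < 3, ∀ b < 3, 5 * raw c d a b + 16 ≤ X + Y + raw C D a b := by
  intro a ha b hb
  have h1 := hc a ha 0 (by norm_num)
  have h2 := hc a ha 1 (by norm_num)
  have h3 := hc a ha 2 (by norm_num)
  have h4 := hd 0 (by norm_num) b hb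
  have h5 := hd 1 (by norm_num) b hb
  have h6 := hd 2 (by norm_num) b hb
  unfold raw
  split_ifs <;> omega

theorem clA_bound5 {c C : ℕ → ℕ → ℕ} {X K : ℕ}
    (hc : ∀ a < 3, ∀ b < 3, 5 * c a b + K ≤ X + C a b) :
    ∀ a < 3, ∀ b < 3, 5 * clA c a b + K ≤ X + clA C a b := by
  intro a ha b hb
  have h1 := hc 0 (by norm_num) b hb
  have h2 := hc 1 (by norm_num) b hb
  have h3 := hc 2 (by norm_num) b hb
  unfold clA
  split_ifs <;> omega

theorem clB_bound5 {c C : ℕ → ℕ → ℕ} {X K : ℕ}
    (hc : ∀ a < 3, ∀ b < 3, 5 * c a b + K ≤ X + C a b) :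
    ∀ a < 3, ∀ b < 3, 5 * clB c a b + K ≤ X + clB C a b := by
  intro a ha b hb
  have h1 := hc a ha 0 (by norm_num)
  have h2 := hc a ha 1 (by norm_num)
  have h3 := hc a ha 2 (by norm_num)
  unfold clB
  split_ifs <;> omega

theorem leaf_bound5 : ∀ a < 3, ∀ b < 3, 5 * cost leaf a b + 8 ≤ 1 + D5 0 a b := by
  decide +kernel

theorem cost_le_cmpo (l r : BT) (a b : ℕ) : cost (node l r) a b ≤ cmpo (cost l) (cost r) a b := by
  by_cases h8 : node l r = D8
  · simp only [cost, h8, if_true]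
    exact Nat.min_le_left _ _
  · simp only [cost, h8, if_false]
    exact le_rfl

/-- The cost vector is bounded by the type. -/
theorem cost_bound5 : ∀ t : BT, ∀ a < 3, ∀ b < 3,
    5 * cost t a b + 8 ≤ t.sz + 2 * ee t + D5 (ty t) a b := by
  intro t
  induction t with
  | leaf =>
    intro a ha b hb
    simpa [sz, ee, ty] using leaf_bound5 a ha b hb
  | node l r ihl ihr =>
    intro a ha b hb
    have hb1 := clB_bound5 (clA_bound5 (raw_bound5 ihl ihr)) a ha b hb
    have hb2 := (T5_check (ty l) (ty_lt l).1 (ty r) (ty_lt r).1).2 a ha b hb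
    have hb3 := cost_le_cmpo l r a b
    have hsz : (node l r).sz = l.sz + r.sz := rfl
    have hty : ty (node l r) = T5 (ty l) (ty r) := rfl
    have hee : ee (node l r) = (if l = leaf ∧ r = leaf then 1 else 0) + ee l + ee r := rfl
    simp only [(ty_lt l).2, (ty_lt r).2] at hb2
    rw [hsz, hty, hee]
    change 5 * cmpo (cost l) (cost r) a b + 16 ≤
      l.sz + 2 * ee l + (r.sz + 2 * ee r) + cmpo (D5 (ty l)) (D5 (ty r)) a b at hb1
    split_ifs at hb2 ⊢ <;> omega

/-- The bound for the whole polygon. -/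
theorem cost_fin5 (t : BT) (ht : t ≠ leaf) :
    5 * cost t 0 0 ≤ (t.sz + 1) + 2 * ee t ∨ 5 * (cost t 2 2 + 1) ≤ (t.sz + 1) + 2 * ee t := by
  have h1 := cost_bound5 t 0 (by norm_num) 0 (by norm_num)
  have h2 := cost_bound5 t 2 (by norm_num) 2 (by norm_num)
  rcases D5_fin (ty t) (ty_lt t).1 (fun h0 => ht ((ty_lt t).2.1 h0)) with h3 | h3
  · left; omega
  · right; omega

end MP7e112f
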