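import Pool.Agent.Lib.MP_7e112f_co.Defs

/-!
# MP_7e112f_co: triangulations of a polygon and their ears
-/

open Set

namespace MP7e112f

/-- `D` is a triangulation of the polygon with the vertices `p 0, …, p (n-1)`: a set of `n - 3`
pairs of vertices, such that for every pair the open segment between the two vertices lies in the
interior of the polygon, and these open segments are pairwise disjoint. -/
structure IsTriangulation {n : ℕ} [NeZero n] (p : Fin n → ℂ) (D : Finset (Sym2 (Fin n))) :
    Prop where
  card : D.card + 3 = n
  diag : ∀ i j, s(i, j) ∈ D → openSegment ℝ (p i) (p j) ⊆ region p \ curve p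
  disj : ∀ i j k l, s(i, j) ∈ D → s(k, l) ∈ D → s(i, j) ≠ s(k, l) →
    Disjoint (openSegment ℝ (p i) (p j)) (openSegment ℝ (p k) (p l))

/-- The number of ears of a triangulation: the number of vertices `i + 1` whose two neighbours `i`
and `i + 2` are joined by a diagonal of the triangulation. -/
def ears {n : ℕ} [NeZero n] (D : Finset (Sym2 (Fin n))) : ℕ :=
  (Finset.univ.filter fun i : Fin n => s(i, i + 2) ∈ D).card

end MP7e112f
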