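import Pool.Agent.Lib.MP_7e112f_co.Graft
import Pool.Agent.Lib.MP_7e112f_co_E.DPE

/-!
# MP_7e112f_co: the positions of the ears of a tree
-/

namespace MP7e112f

open BT

/-- The positions of the nodes with two leaves: the node with the leaves `o` and `o + 1` has the
position `o`. -/
def ep : BT → ℕ → Finset ℕ
  | leaf, _ => ∅
  | node l r, o => (if l = leaf ∧ r = leaf then {o} else ∅) ∪ (ep l o ∪ ep r (o + l.sz))

theorem ep_range : ∀ (t : BT) (o x : ℕ), x ∈ ep t o → o ≤ x ∧ x + 2 ≤ o + t.sz
  | leaf, _, _, h => by simp [ep] at h
  | node l r, o, x, h => by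
      have hl := sz_pos l
      have hr := sz_pos r
      simp only [ep, Finset.mem_union] at h
      rcases h with h | h | h
      · split_ifs at h with h1
        · have h2 := Finset.mem_singleton.1 h
          simp only [sz]
          omega
        · exact absurd h (Finset.notMem_empty _)
      · have := ep_range l o x h
        simp only [sz]
        omega
      · have := ep_range r _ x h
        simp only [sz]
        omega

theorem ep_card : ∀ (t : BT) (o : ℕ), (ep t o).card = ee t
  | leaf, _ => rfl
  | node l r, o => by
      have h1 : Disjoint (ep l o) (ep r (o + l.sz)) := by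
        rw [Finset.disjoint_left]
        intro x hx hx'
        have := ep_range l o x hx
        have := ep_range r _ x hx'
        omega
      by_cases h : l = leaf ∧ r = leaf
      · obtain ⟨rfl, rfl⟩ := h
        simp [ep, ee]
      · have h2 : ep (node l r) o = ep l o ∪ ep r (o + l.sz) := by
          simp only [ep, h, if_false, Finset.empty_union]
        rw [h2, Finset.card_union_of_disjoint h1, ep_card l o, ep_card r _]
        simp only [ee, h, if_false]
        omega

theorem ep_nonempty : ∀ (t : BT) (o : ℕ), t ≠ leaf → (ep t o).Nonempty
  | leaf, _, h => absurd rfl h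
  | node l r, o, _ => by
      by_cases hl : l = leaf
      · by_cases hr : r = leaf
        · exact ⟨o, by simp [ep, hl, hr]⟩
        · obtain ⟨x, hx⟩ := ep_nonempty r (o + l.sz) hr
          exact ⟨x, by simp only [ep, Finset.mem_union]; exact Or.inr (Or.inr hx)⟩
      · obtain ⟨x, hx⟩ := ep_nonempty l o hl
        exact ⟨x, by simp only [ep, Finset.mem_union]; exact Or.inr (Or.inl hx)⟩

theorem ep_shift : ∀ (t : BT) (o c x : ℕ), x ∈ ep t (o + c) → ∃ y ∈ ep t o, x = y + c
  | leaf, _, _, _, h => by simp [ep] at h
  | node l r, o, c, x, h => by
      simp only [ep, Finset.mem_union] at h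
      rcases h with h | h | h
      · split_ifs at h with h1
        · refine ⟨o, ?_, Finset.mem_singleton.1 h⟩
          simp only [ep, Finset.mem_union]
          left
          rw [if_pos h1]
          exact Finset.mem_singleton_self _
        · exact absurd h (Finset.notMem_empty _)
      · obtain ⟨y, hy, hxy⟩ := ep_shift l o c x h
        exact ⟨y, by simp only [ep, Finset.mem_union]; exact Or.inr (Or.inl hy), hxy⟩
      · have e : o + c + l.sz = o + l.sz + c := by omega
        rw [e] at h
        obtain ⟨y, hy, hxy⟩ := ep_shift r _ c x h
        exact ⟨y, by simp only [ep, Finset.mem_union]; exact Or.inr (Or.inr hy), hxy⟩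

theorem graft_ne_leaf {t : BT} {i : ℕ} {u : BT} (hu : 2 ≤ u.sz) : graft t i u ≠ leaf := by
  cases t with
  | leaf =>
    intro h
    simp only [graft] at h
    rw [h] at hu
    simp [sz] at hu
  | node l r =>
    simp only [graft]
    split_ifs <;> simp

/-- The ears of a tree with a tree `u` in place of the `i`-th leaf. -/
theorem ep_graft {u : BT} (hu : 2 ≤ u.sz) : ∀ (t : BT) (o i x : ℕ), i < t.sz →
    x ∈ ep (graft t i u) o → x ∈ ep u (o + i) ∨ (x ∈ ep t o ∧ x + 2 ≤ o + i) ∨
      ∃ y ∈ ep t o, o + i < y ∧ x = y + (u.sz - 1) := by
  intro t
  induction t with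
  | leaf =>
    intro o i x hi hx
    simp only [sz] at hi
    have : i = 0 := by omega
    subst this
    left
    simpa [graft] using hx
  | node l r ihl ihr =>
    intro o i x hi hx
    simp only [sz] at hi
    by_cases hil : i < l.sz
    · have e : graft (node l r) i u = node (graft l i u) r := by
        simp only [graft, if_pos hil]
      rw [e] at hx
      simp only [ep, Finset.mem_union] at hx
      rcases hx with hx | hx | hx
      · rw [if_neg (fun h => graft_ne_leaf hu h.1)] at hx
        exact absurd hx (Finset.notMem_empty _)
      · rcases ihl o i x hil hx with h | ⟨h, h'⟩ | ⟨y, hy, hy', hxy⟩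
        · exact Or.inl h
        · exact Or.inr (Or.inl ⟨by simp only [ep, Finset.mem_union]; exact Or.inr (Or.inl h), h'⟩)
        · exact Or.inr (Or.inr ⟨y, by
            simp only [ep, Finset.mem_union]; exact Or.inr (Or.inl hy), hy', hxy⟩)
      · have e2 : o + (graft l i u).sz = o + l.sz + (u.sz - 1) := by
          rw [graft_sz l i u hil]
          omega
        rw [e2] at hx
        obtain ⟨y, hy, hxy⟩ := ep_shift r _ _ x hx
        have := ep_range r _ y hy
        exact Or.inr (Or.inr ⟨y, by
          simp only [ep, Finset.mem_union]; exact Or.inr (Or.inr hy), by omega, hxy⟩)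
    · have e : graft (node l r) i u = node l (graft r (i - l.sz) u) := by
        simp only [graft, if_neg hil]
      rw [e] at hx
      simp only [ep, Finset.mem_union] at hx
      rcases hx with hx | hx | hx
      · rw [if_neg (fun h => graft_ne_leaf hu h.2)] at hx
        exact absurd hx (Finset.notMem_empty _)
      · have := ep_range l o x hx
        exact Or.inr (Or.inl ⟨by
          simp only [ep, Finset.mem_union]; exact Or.inr (Or.inl hx), by omega⟩)
      · have e2 : o + l.sz + (i - l.sz) = o + i := by omega
        rcases ihr (o + l.sz) (i - l.sz) x (by omega) hx with h | ⟨h, h'⟩ | ⟨y, hy, hy', hxy⟩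
        · rw [e2] at h
          exact Or.inl h
        · exact Or.inr (Or.inl ⟨by
            simp only [ep, Finset.mem_union]; exact Or.inr (Or.inr h), by omega⟩)
        · exact Or.inr (Or.inr ⟨y, by
            simp only [ep, Finset.mem_union]; exact Or.inr (Or.inr hy), by omega, hxy⟩)

end MP7e112f
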