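import Pool.Agent.Lib.MP_7e112f_co_E.TriD
import Pool.Agent.Lib.MP_7e112f_co_E.DefsE
import Pool.Agent.Lib.MP_7e112f_co.Conv

/-!
# MP_7e112f_co: chains whose vertices are labelled by the vertices of a polygon
-/

open Set

namespace MP7e112f

private theorem ofNat_succ {n : ℕ} [NeZero n] (k : ℕ) :
    Fin.ofNat n (k + 1) = Fin.ofNat n k + 1 := by
  apply Fin.ext
  rw [Fin.val_add]
  have h1 : ((1 : Fin n) : ℕ) = 1 % n := rfl
  simp only [Fin.val_ofNat]
  rw [Nat.add_mod, h1]

private theorem ofNat_inj {n : ℕ} [NeZero n] {i j : ℕ} (hi : i < n) (hj : j < n)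
    (h : Fin.ofNat n i = Fin.ofNat n j) : i = j := by
  have h1 := congrArg Fin.val h
  simp only [Fin.val_ofNat] at h1
  rwa [Nat.mod_eq_of_lt hi, Nat.mod_eq_of_lt hj] at h1

private theorem ofNat_self {n : ℕ} [NeZero n] : Fin.ofNat n n = Fin.ofNat n 0 := by
  apply Fin.ext
  simp only [Fin.val_ofNat, Nat.mod_self, Nat.zero_mod]

/-- The chain `q` runs around the polygon `p`; the vertex `q k` has the name `g k`. -/
structure LC {n : ℕ} [NeZero n] (p : Fin n → ℂ) (q : ℕ → ℂ) (g : ℕ → Fin n) : Prop where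
  sc : SC q n
  ori : Ori q n 1
  cv : crv q n = curve p
  lab : ∀ k ≤ n, q k = p (g k)
  inj : ∀ a b, a < n → b < n → g a = g b → a = b
  cyc : g n = g 0
  dir : (∀ k < n, g (k + 1) = g k + 1) ∨ (∀ k < n, g k = g (k + 1) + 1)

theorem lc_ex {n : ℕ} [NeZero n] (hn : 3 ≤ n) {p : Fin n → ℂ} (h : SimplePolygon p) :
    ∃ q g, LC p q g := by
  obtain ⟨hS, hc, hE⟩ := sc_of_simple hn h
  obtain ⟨s, hs⟩ := pjt hS
  rcases hs.sq with rfl | rfl
  · exact ⟨_, fun k => Fin.ofNat n k, hS, hs, hc, fun k _ => rfl,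
      fun a b ha hb hab => ofNat_inj ha hb hab, ofNat_self, Or.inl fun k _ => ofNat_succ k⟩
  · obtain ⟨hR, hRc, hW⟩ := sc_rev hS
    refine ⟨_, fun k => Fin.ofNat n (n - k), hR, ⟨Or.inl rfl, ?_, ?_⟩, hRc.trans hc,
      fun k _ => rfl, ?_, ?_, Or.inr fun k hk => ?_⟩
    · obtain ⟨z, hz, hz'⟩ := hs.ex
      refine ⟨z, by rw [hRc]; exact hz, ?_⟩
      rw [hW z hz, hz', neg_neg]
    · intro z hz
      have hz1 : z ∉ crv (fun k => p (Fin.ofNat n k)) n := by rw [← hRc]; exact hz
      have hcmp : cmp (fun k => (fun k => p (Fin.ofNat n k)) (n - k)) n z =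
          cmp (fun k => p (Fin.ofNat n k)) n z := by
        unfold cmp
        rw [hRc]
      rw [hW z hz1, hcmp]
      rcases hs.dich z hz1 with ⟨h1, h2⟩ | ⟨h1, h2⟩
      · left
        exact ⟨by rw [h1, neg_zero], h2⟩
      · right
        exact ⟨by rw [h1, neg_neg], h2⟩
    · intro a b ha hb hab
      have e1 : ∀ c, c < n → (Fin.ofNat n (n - c)).val = if c = 0 then 0 else n - c := by
        intro c hc
        split_ifs with h0
        · rw [h0, Nat.sub_zero, Fin.val_ofNat, Nat.mod_self]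
        · rw [Fin.val_ofNat, Nat.mod_eq_of_lt (by omega)]
      have e2 := congrArg Fin.val hab
      rw [e1 a ha, e1 b hb] at e2
      split_ifs at e2 <;> omega
    · simp only [Nat.sub_self, Nat.sub_zero]
      exact ofNat_self.symm
    · have e : n - k = n - (k + 1) + 1 := by omega
      rw [e, ofNat_succ]

/-- The names of the vertices of the rotated chain. -/
def rog {n : ℕ} (g : ℕ → Fin n) (r : ℕ) : ℕ → Fin n :=
  fun k => if k + r ≤ n then g (k + r) else g (k + r - n)

theorem rog_edge {n : ℕ} [NeZero n] {g : ℕ → Fin n} {r k : ℕ} (hcl : g n = g 0) :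
    (k + r < n ∧ rog g r k = g (k + r) ∧ rog g r (k + 1) = g (k + r + 1)) ∨
    (n ≤ k + r ∧ rog g r k = g (k + r - n) ∧ rog g r (k + 1) = g (k + r - n + 1)) := by
  by_cases h1 : k + r < n
  · left
    refine ⟨h1, ?_, ?_⟩
    · show (if k + r ≤ n then g (k + r) else g (k + r - n)) = _
      rw [if_pos h1.le]
    · show (if k + 1 + r ≤ n then g (k + 1 + r) else g (k + 1 + r - n)) = _
      rw [if_pos (by omega)]
      congr 1
      omega
  · right
    refine ⟨by omega, ?_, ?_⟩
    · show (if k + r ≤ n then g (k + r) else g (k + r - n)) = _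
      by_cases h2 : k + r = n
      · rw [if_pos h2.le, h2, Nat.sub_self, hcl]
      · rw [if_neg (by omega)]
    · show (if k + 1 + r ≤ n then g (k + 1 + r) else g (k + 1 + r - n)) = _
      rw [if_neg (by omega)]
      congr 1
      omega

theorem lc_rot {n : ℕ} [NeZero n] {p : Fin n → ℂ} {q : ℕ → ℂ} {g : ℕ → Fin n} (h : LC p q g)
    {r : ℕ} (hr : r < n) : LC p (rot q n r) (rog g r) := by
  have hcl := h.sc.cl
  have hcmp : ∀ z, cmp (rot q n r) n z = cmp q n z := by
    intro z
    unfold cmp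
    rw [rot_crv hcl hr]
  refine ⟨rot_SC h.sc hr, ⟨Or.inl rfl, ?_, ?_⟩, ?_, ?_, ?_, ?_, ?_⟩
  · obtain ⟨z, hz, hz'⟩ := h.ori.ex
    exact ⟨z, by rw [rot_crv hcl hr]; exact hz, by rw [rot_W hcl hr]; exact hz'⟩
  · intro z hz
    rw [rot_crv hcl hr] at hz
    rw [rot_W hcl hr, hcmp]
    exact h.ori.dich z hz
  · rw [rot_crv hcl hr]
    exact h.cv
  · intro k hk
    show (if k + r ≤ n then q (k + r) else q (k + r - n)) =
      p (if k + r ≤ n then g (k + r) else g (k + r - n))
    split_ifs with h1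
    · exact h.lab _ h1
    · exact h.lab _ (by omega)
  · intro a b ha hb hab
    rcases rog_edge (g := g) h.cyc (r := r) (k := a) with ⟨h1, h2, -⟩ | ⟨h1, h2, -⟩ <;>
      rcases rog_edge (g := g) h.cyc (r := r) (k := b) with ⟨h3, h4, -⟩ | ⟨h3, h4, -⟩ <;>
      rw [h2, h4] at hab
    · have := h.inj _ _ h1 h3 hab
      omega
    · have := h.inj _ _ h1 (by omega) hab
      omega
    · have := h.inj _ _ (by omega) h3 hab
      omega
    · have := h.inj _ _ (by omega) (by omega) hab
      omega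
  · show (if n + r ≤ n then g (n + r) else g (n + r - n)) =
      (if 0 + r ≤ n then g (0 + r) else g (0 + r - n))
    rw [if_pos (show 0 + r ≤ n by omega), Nat.zero_add]
    by_cases h0 : r = 0
    · subst h0
      simpa using h.cyc
    · rw [if_neg (by omega), Nat.add_sub_cancel_left]
  · rcases h.dir with hd | hd
    · left
      intro k hk
      rcases rog_edge (g := g) h.cyc (r := r) (k := k) with ⟨h1, h2, h3⟩ | ⟨h1, h2, h3⟩ <;> rw [h2, h3]
      · exact hd _ h1
      · exact hd _ (by omega)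
    · right
      intro k hk
      rcases rog_edge (g := g) h.cyc (r := r) (k := k) with ⟨h1, h2, h3⟩ | ⟨h1, h2, h3⟩ <;> rw [h2, h3]
      · exact hd _ h1
      · exact hd _ (by omega)

theorem lc_surj {n : ℕ} [NeZero n] {p : Fin n → ℂ} {q : ℕ → ℂ} {g : ℕ → Fin n} (h : LC p q g)
    (i : Fin n) : ∃ k < n, g k = i := by
  have h1 : Function.Injective fun k : Fin n => g k.val := by
    intro a b hab
    exact Fin.ext (h.inj _ _ a.2 b.2 hab)
  obtain ⟨k, hk⟩ := (Finite.injective_iff_surjective.1 h1) i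
  exact ⟨k.val, k.2, hk⟩

/-- The diagonals of the triangulation in terms of the labelled chain. -/
theorem lc_tri {n : ℕ} [NeZero n] {p : Fin n → ℂ} {q : ℕ → ℂ} {g : ℕ → Fin n} (h : LC p q g)
    {D : Finset (Sym2 (Fin n))} (hD : IsTriangulation p D) :
    ∃ t : BT, t.sz + 1 = n ∧ Pos q t 0 ∧ Emb q t 0 ∧ rgn (crv q n) = reg q t 0 ∧
      ∀ o ∈ ep t 0, n = 3 ∨ s(g o, g (o + 2)) ∈ D := by
  classical
  obtain ⟨DD, hDD⟩ : ∃ DD : Finset (ℕ × ℕ), ∀ x, x ∈ DD ↔ x.1 < x.2 ∧ x.2 < n ∧
      s(g x.1, g x.2) ∈ D := by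
    refine ⟨((Finset.range n) ×ˢ (Finset.range n)).filter fun x => x.1 < x.2 ∧
      s(g x.1, g x.2) ∈ D, fun x => ?_⟩
    rw [Finset.mem_filter, Finset.mem_product, Finset.mem_range, Finset.mem_range]
    constructor
    · rintro ⟨⟨h1, h2⟩, h3, h4⟩
      exact ⟨h3, h2, h4⟩
    · rintro ⟨h1, h2, h3⟩
      exact ⟨⟨by omega, h2⟩, h1, h3⟩
  have hcard : D.card ≤ DD.card := by
    have h1 : D ⊆ DD.image fun x => s(g x.1, g x.2) := by
      intro e he
      induction e using Sym2.ind with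
      | _ i j =>
        obtain ⟨a, ha, rfl⟩ := lc_surj h i
        obtain ⟨b, hb, rfl⟩ := lc_surj h j
        rcases Nat.lt_trichotomy a b with h2 | h2 | h2
        · exact Finset.mem_image.2 ⟨(a, b), (hDD _).2 ⟨h2, hb, he⟩, rfl⟩
        · exfalso
          subst h2
          have h3 := hD.diag _ _ he (a := p (g a)) (by
            rw [openSegment_same]
            exact mem_singleton _)
          apply h3.2
          rw [← h.cv]
          rw [← h.lab a ha.le]
          exact ⟨a, ha, left_mem_segment ℝ _ _⟩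
        · refine Finset.mem_image.2 ⟨(b, a), (hDD _).2 ⟨h2, ha, ?_⟩, Sym2.eq_swap⟩
          show s(g b, g a) ∈ D
          rw [Sym2.eq_swap]
          exact he
    exact (Finset.card_le_card h1).trans Finset.card_image_le
  have hdiag : ∀ x ∈ DD, ∀ z ∈ openSegment ℝ (q x.1) (q x.2), z ∉ crv q n ∧ W q n z ≠ 0 := by
    intro x hx z hz
    obtain ⟨h1, h2, h3⟩ := (hDD x).1 hx
    rw [h.lab _ (by omega), h.lab _ (by omega)] at hz
    have h4 := hD.diag _ _ h3 hz
    have h5 : z ∉ crv q n := by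
      rw [h.cv]
      exact h4.2
    refine ⟨h5, ?_⟩
    have h6 : z ∈ rgn (crv q n) := by
      rw [h.cv]
      exact h4.1
    rw [mem_rgn h.ori] at h6
    rw [h6.resolve_left h5]
    exact one_ne_zero
  have hNC : NC q n DD := by
    refine ⟨?_, ?_, ?_⟩
    · intro x hx
      obtain ⟨h1, h2, h3⟩ := (hDD x).1 hx
      have h4 := hdiag x hx _ mid_mem
      refine ⟨?_, h2, ?_⟩
      · by_contra hc
        have h5 : x.2 = x.1 + 1 := by omega
        apply h4.1
        refine ⟨x.1, by omega, ?_⟩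
        rw [h5]
        exact openSegment_subset_segment ℝ _ _ mid_mem
      · by_contra hc
        have h5 : x.1 = 0 := by omega
        have h6 : x.2 = n - 1 := by omega
        apply h4.1
        refine ⟨n - 1, by omega, ?_⟩
        have h7 : n - 1 + 1 = n := by omega
        rw [h7, h.sc.cl, h5, h6, segment_symm]
        exact openSegment_subset_segment ℝ _ _ mid_mem
    · intro x hx
      exact hdiag x hx
    · intro x hx y hy hxy
      obtain ⟨h1, h2, h3⟩ := (hDD x).1 hx
      obtain ⟨h4, h5, h6⟩ := (hDD y).1 hy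
      rw [h.lab _ (by omega), h.lab _ (by omega), h.lab y.1 (by omega), h.lab y.2 (by omega)]
      refine hD.disj _ _ _ _ h3 h6 fun he => hxy ?_
      rcases Sym2.eq_iff.1 he with ⟨e1, e2⟩ | ⟨e1, e2⟩
      · exact Prod.ext (h.inj _ _ (by omega) (by omega) e1) (h.inj _ _ (by omega) (by omega) e2)
      · have e3 := h.inj _ _ (by omega) (by omega) e1
        have e4 := h.inj _ _ (by omega) (by omega) e2
        omega
  obtain ⟨I, J⟩ := tri_D n q h.sc h.ori DD hNC
  have hc := hD.card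
  obtain ⟨t, h1, h2, h3, h4, h5⟩ := J (by clear J; omega)
  refine ⟨t, h1, h2, h3, h4, fun o ho => ?_⟩
  rcases h5 o ho with h6 | h6
  · exact Or.inl h6
  · exact Or.inr ((hDD _).1 h6).2.2

end MP7e112f
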