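import Pool.Agent.Lib.MP_7e112f_co_E.LabC

/-!
# MP_7e112f_co: edge guards and the number of ears of a triangulation
-/

open Set

namespace MP7e112f

open BT

private theorem add_two {n : ℕ} [NeZero n] (i : Fin n) : i + 2 = i + 1 + 1 := by
  apply Fin.ext
  have h1 : ((1 : Fin n) : ℕ) = 1 % n := rfl
  have h2 : ((2 : Fin n) : ℕ) = 2 % n := rfl
  rw [Fin.val_add, Fin.val_add, Fin.val_add, h1, h2, Nat.add_mod_mod, Nat.mod_add_mod,
    Nat.add_mod_mod, Nat.add_right_comm, Nat.add_mod_mod]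

theorem le_ears {n : ℕ} [NeZero n] {p : Fin n → ℂ} {q : ℕ → ℂ} {g : ℕ → Fin n} (h : LC p q g)
    {D : Finset (Sym2 (Fin n))} {S : Finset ℕ} (hS : ∀ k ∈ S, k < n ∧ s(g k, g k + 2) ∈ D) :
    S.card ≤ ears D := by
  classical
  have h1 : Set.InjOn g (S : Set ℕ) := fun a ha b hb hab =>
    h.inj a b (hS a ha).1 (hS b hb).1 hab
  unfold ears
  rw [← Finset.card_image_of_injOn h1]
  apply Finset.card_le_card
  intro i hi
  obtain ⟨k, hk, rfl⟩ := Finset.mem_image.1 hi
  exact Finset.mem_filter.2 ⟨Finset.mem_univ _, (hS k hk).2⟩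

theorem ears_tree {n : ℕ} [NeZero n] {p : Fin n → ℂ} {q : ℕ → ℂ} {g : ℕ → Fin n} (h : LC p q g)
    (hn : 4 ≤ n) {D : Finset (Sym2 (Fin n))} (hD : IsTriangulation p D)
    (h0 : s(g 1, g (n - 1)) ∈ D) :
    ∃ t : BT, t.sz + 1 = n ∧ Pos q t 0 ∧ Emb q t 0 ∧ rgn (crv q n) = reg q t 0 ∧
      ee t + 1 ≤ ears D := by
  classical
  obtain ⟨t, h1, h2, h3, h4, h5⟩ := lc_tri h hD
  refine ⟨t, h1, h2, h3, h4, ?_⟩
  have h6 : ∀ o ∈ ep t 0, o + 2 < n ∧ s(g o, g (o + 2)) ∈ D := by
    intro o ho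
    have := ep_range t 0 o ho
    exact ⟨by omega, (h5 o ho).resolve_left (by omega)⟩
  have en : n - 1 + 1 = n := by omega
  rcases h.dir with hd | hd
  · have h7 : (n - 1) ∉ ep t 0 := by
      intro h8
      have := (h6 _ h8).1
      omega
    rw [← ep_card t 0, ← Finset.card_insert_of_notMem h7]
    apply le_ears h
    intro k hk
    rcases Finset.mem_insert.1 hk with rfl | hk
    · refine ⟨by omega, ?_⟩
      have e1 := hd (n - 1) (by omega)
      rw [en, h.cyc] at e1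
      rw [add_two, ← e1, ← hd 0 (by omega), Sym2.eq_swap]
      exact h0
    · obtain ⟨h8, h9⟩ := h6 k hk
      refine ⟨by omega, ?_⟩
      rw [add_two, ← hd k (by omega), ← hd (k + 1) (by omega)]
      exact h9
  · have h7 : 1 ∉ (ep t 0).image (fun x => x + 2) := by
      intro h8
      obtain ⟨x, -, hx⟩ := Finset.mem_image.1 h8
      omega
    have h8 : ((ep t 0).image (fun x => x + 2)).card = (ep t 0).card :=
      Finset.card_image_of_injective _ (fun a b hab => by simpa using hab)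
    rw [← ep_card t 0, ← h8, ← Finset.card_insert_of_notMem h7]
    apply le_ears h
    intro k hk
    rcases Finset.mem_insert.1 hk with rfl | hk
    · refine ⟨by omega, ?_⟩
      have e1 := hd (n - 1) (by omega)
      rw [en, h.cyc] at e1
      have e2 := hd 0 (by omega)
      rw [Nat.zero_add] at e2
      rw [add_two, ← e2, ← e1]
      exact h0
    · obtain ⟨x, hx, rfl⟩ := Finset.mem_image.1 hk
      obtain ⟨h9, h10⟩ := h6 x hx
      refine ⟨h9, ?_⟩
      rw [add_two, ← hd (x + 1) (by omega), ← hd x (by omega), Sym2.eq_swap]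
      exact h10

theorem rooted {n : ℕ} [NeZero n] {p : Fin n → ℂ} (hn : 4 ≤ n) (hp : SimplePolygon p)
    {D : Finset (Sym2 (Fin n))} (hD : IsTriangulation p D) :
    ∃ q g, LC p q g ∧ s(g 1, g (n - 1)) ∈ D := by
  obtain ⟨q, g, h⟩ := lc_ex (by omega) hp
  obtain ⟨t, h1, -, -, -, h5⟩ := lc_tri h hD
  have hl : t ≠ leaf := by
    rintro rfl
    simp only [sz] at h1
    omega
  obtain ⟨o, ho⟩ := ep_nonempty t 0 hl
  have hr := ep_range t 0 o ho
  have h6 := (h5 o ho).resolve_left (by omega)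
  refine ⟨rot q n (o + 1), rog g (o + 1), lc_rot h (by omega), ?_⟩
  have e1 : rog g (o + 1) 1 = g (o + 2) := by
    show (if 1 + (o + 1) ≤ n then g (1 + (o + 1)) else g (1 + (o + 1) - n)) = _
    rw [if_pos (by omega)]
    congr 1
    omega
  have e2 : rog g (o + 1) (n - 1) = g o := by
    show (if n - 1 + (o + 1) ≤ n then g (n - 1 + (o + 1)) else g (n - 1 + (o + 1) - n)) = _
    split_ifs with h7
    · have h8 : n - 1 + (o + 1) = n := by omega
      have h9 : o = 0 := by omega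
      rw [h8, h9, h.cyc]
    · congr 1
      omega
  rw [e1, e2, Sym2.eq_swap]
  exact h6

theorem lc_edge {n : ℕ} [NeZero n] {p : Fin n → ℂ} {q : ℕ → ℂ} {g : ℕ → Fin n} (h : LC p q g) :
    ∃ f : ℕ → Fin n, ∀ k < n, segment ℝ (q k) (q (k + 1)) = edge p (f k) := by
  rcases h.dir with hd | hd
  · refine ⟨g, fun k hk => ?_⟩
    rw [h.lab k hk.le, h.lab (k + 1) hk, hd k hk, edge]
  · refine ⟨fun k => g (k + 1), fun k hk => ?_⟩
    rw [h.lab k hk.le, h.lab (k + 1) hk, hd k hk, edge, segment_symm]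

theorem tree_cover {q : ℕ → ℂ} {n : ℕ} (h : SC q n) {t : BT} (hn : t.sz + 1 = n)
    (hp : Pos q t 0) (he : Emb q t 0) (hr : rgn (crv q n) = reg q t 0) :
    ∃ E : Finset ℕ, (∀ k ∈ E, k < n) ∧ 5 * E.card ≤ n + 2 * ee t ∧
      ∀ y ∈ rgn (crv q n), ∃ k ∈ E, ∃ x ∈ segment ℝ (q k) (q (k + 1)),
        segment ℝ x y ⊆ rgn (crv q n) := by
  have h3 := h.three
  have hleaf : t ≠ leaf := by
    rintro rfl
    simp only [sz] at hn
    omega
  rw [hr]
  rcases cost_fin5 t hleaf with hc | hc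
  · obtain ⟨E, h1, h2, _, _, h5⟩ := ach_cost q t 0 hp he 0 0
    refine ⟨E, fun k hk => ?_, ?_, fun y hy => ?_⟩
    · have := Finset.mem_Ico.1 (h1 hk)
      omega
    · rw [← hn]
      have : 5 * E.card ≤ 5 * cost t 0 0 := Nat.mul_le_mul_left 5 h2
      omega
    · rcases h5 y hy with h6 | h6 | h6
      · exact h6
      · exact absurd h6.1 (by decide)
      · exact absurd h6.1 (by decide)
  · obtain ⟨E, h1, h2, _, _, h5⟩ := ach_cost q t 0 hp he 2 2
    refine ⟨insert (n - 1) E, fun k hk => ?_, ?_, fun y hy => ?_⟩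
    · rcases Finset.mem_insert.1 hk with rfl | hk
      · omega
      · have := Finset.mem_Ico.1 (h1 hk)
        omega
    · rw [← hn]
      have h6 := Finset.card_insert_le (n - 1) E
      have h7 : E.card ≤ cost t 2 2 := h2
      rw [← hn] at h6
      omega
    · have e1 : n - 1 + 1 = n := by omega
      rcases h5 y hy with ⟨j, hj, h6⟩ | ⟨_, h6⟩ | ⟨_, h6⟩
      · exact ⟨j, Finset.mem_insert_of_mem hj, h6⟩
      · refine ⟨n - 1, Finset.mem_insert_self _ _, q 0, ?_, h6⟩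
        rw [e1, h.cl]
        exact right_mem_segment ℝ _ _
      · refine ⟨n - 1, Finset.mem_insert_self _ _, q (n - 1), left_mem_segment ℝ _ _, ?_⟩
        have e2 : 0 + t.sz = n - 1 := by omega
        rwa [e2] at h6

/-- Main theorem. -/
theorem edge_guards_ears (n : ℕ) [NeZero n] (hn : 4 ≤ n) (p : Fin n → ℂ) (hp : SimplePolygon p)
    (D : Finset (Sym2 (Fin n))) (hD : IsTriangulation p D) :
    ∃ E : Finset (Fin n), 5 * E.card + 2 ≤ n + 2 * ears D ∧
      ∀ y ∈ region p, ∃ i ∈ E, ∃ x ∈ edge p i, segment ℝ x y ⊆ region p := by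
  obtain ⟨q, g, h, h0⟩ := rooted hn hp hD
  obtain ⟨t, h1, h2, h3, h4, h5⟩ := ears_tree h hn hD h0
  obtain ⟨f, hf⟩ := lc_edge h
  obtain ⟨E, h6, h7, h8⟩ := tree_cover h.sc h1 h2 h3 h4
  classical
  refine ⟨E.image f, ?_, ?_⟩
  · have := Finset.card_image_le (s := E) (f := f)
    omega
  · unfold region
    rw [← h.cv]
    intro y hy
    obtain ⟨k, hk, x, hx, hseg⟩ := h8 y hy
    rw [hf k (h6 k hk)] at hx
    exact ⟨f k, Finset.mem_image_of_mem f hk, x, hx, hseg⟩

end MP7e112f
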