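import Pool.Agent.Lib.MP_7e112f_co.GlueM

/-!
# MP_7e112f_co: a second diagonal lies on one side of the first one
-/

open Set

namespace MP7e112f

/-- A vertex on an edge is one of its endpoints. -/
theorem vert_edge {p : ℕ → ℂ} {n : ℕ} (h : SC p n) {m a : ℕ} (hm : m < n) (ha : a < n)
    (hx : p m ∈ segment ℝ (p a) (p (a + 1))) : m = a ∨ m = a + 1 ∨ (a + 1 = n ∧ m = 0) := by
  rcases Nat.lt_trichotomy a m with h1 | h1 | h1
  · rcases h.inter a m h1 hm _ hx (left_mem_segment ℝ _ _) with ⟨h2, _⟩ | ⟨h2, h3, h4⟩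
    · exact Or.inr (Or.inl h2)
    · have := h.inj m 0 hm (by omega) h4
      omega
  · exact Or.inl h1.symm
  · rcases h.inter m a h1 ha _ (left_mem_segment ℝ _ _) hx with ⟨h2, h3⟩ | ⟨h2, h3, _⟩
    · have := h.inj m a hm ha h3
      omega
    · exact Or.inr (Or.inr ⟨h3, h2⟩)

theorem vert_seg {p : ℕ → ℂ} {n i j m : ℕ} (h : SC p n) (hi : i < n) (hj : j < n) (hm : m < n)
    (hmi : m ≠ i) (hmj : m ≠ j) (hD : Diag p n i j) : p m ∉ segment ℝ (p i) (p j) := by
  intro hx
  have h1 : p i ≠ p m := fun e => hmi (h.inj i m hi hm e).symm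
  have h2 : p j ≠ p m := fun e => hmj (h.inj j m hj hm e).symm
  exact (hD _ (mem_openSegment_of_ne_left_right h1 h2 hx)).1 ⟨m, hm, left_mem_segment ℝ _ _⟩

theorem vert_inn {p : ℕ → ℂ} {n i j m : ℕ} (h : SC p n) (hij : i + 2 ≤ j) (hj : j < n)
    (hD : Diag p n i j) (hm : m < n) (hmi : m < i ∨ j < m) :
    p m ∉ crv (inn p i j) (j - i + 1) := by
  intro hx
  rcases (mem_inn hij).1 hx with ⟨k, hik, hkj, hz⟩ | hz
  · rcases vert_edge h hm (by omega) hz with h1 | h1 | h1 <;> omega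
  · rw [segment_symm] at hz
    exact vert_seg h (by omega) hj hm (by omega) (by omega) hD hz

theorem vert_out {p : ℕ → ℂ} {n i j m : ℕ} (h : SC p n) (hij : i + 2 ≤ j) (hj : j < n)
    (hD : Diag p n i j) (hmi : i < m) (hmj : m < j) :
    p m ∉ crv (out p i j) (n - (j - i - 1)) := by
  intro hx
  rcases (mem_out hij hj).1 hx with ⟨k, hk, hkk, hz⟩ | hz
  · rcases vert_edge h (by omega) hk hz with h1 | h1 | h1 <;> omega
  · exact vert_seg h (by omega) hj (by omega) (by omega) (by omega) hD hz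

theorem W_val {p : ℕ → ℂ} {n : ℕ} (ho : Ori p n 1) {z : ℂ} (hz : z ∉ crv p n) :
    W p n z = 0 ∨ W p n z = 1 := by
  rcases ho.dich z hz with h | h
  · exact Or.inl h.1
  · exact Or.inr h.1

/-- There are outer points near every vertex. -/
theorem ext_near {p : ℕ → ℂ} {n k : ℕ} (h : SC p n) (ho : Ori p n 1) (hk : k < n) {U : Set ℂ}
    (hU : IsOpen U) (hx : p k ∈ U) : ∃ z ∈ U, z ∉ crv p n ∧ W p n z = 0 := by
  have hd : p (k + 1) - p k ≠ 0 := sub_ne_zero.2 (edge_ne h hk).symm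
  have key : ∀ (x v : ℂ), x ∈ U → ∀ δ > 0, ∃ t : ℝ, 0 < t ∧ t < δ ∧ x + t • v ∈ U := by
    intro x v hx δ hδ
    have h1 : Filter.Tendsto (fun t : ℝ => x + t • v) (nhdsWithin 0 (Ioi 0)) (nhds x) := by
      have h2 : Continuous (fun t : ℝ => x + t • v) := by fun_prop
      have h3 := h2.tendsto 0
      rw [zero_smul, add_zero] at h3
      exact h3.mono_left nhdsWithin_le_nhds
    have h4 : ∀ᶠ t : ℝ in nhdsWithin 0 (Ioi 0), x + t • v ∈ U := h1.eventually (hU.mem_nhds hx)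
    have h5 : ∀ᶠ t : ℝ in nhdsWithin 0 (Ioi 0), t ∈ Ioo 0 δ := Ioo_mem_nhdsGT hδ
    obtain ⟨t, ht1, ht2⟩ := (h4.and h5).exists
    exact ⟨t, ht2.1, ht2.2, ht1⟩
  obtain ⟨t, ht0, ht1, htU⟩ := key (p k) (p (k + 1) - p k) hx 1 one_pos
  have hm : p k + t • (p (k + 1) - p k) ∈ openSegment ℝ (p k) (p (k + 1)) :=
    ⟨1 - t, t, by linarith, ht0, by ring, by
      simp only [Complex.real_smul]; push_cast; ring⟩
  obtain ⟨δ, hδ, H⟩ := W_jump h.cl hk hm (fun l hl hlk => open_not_mem h hk hl hlk hm)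
    (cs_I_pos hd)
  obtain ⟨ε, he0, he1, heU⟩ := key (p k + t • (p (k + 1) - p k))
    (-(Complex.I * (p (k + 1) - p k))) htU δ hδ
  obtain ⟨a1, a2, a3⟩ := H ε he0 he1
  have e : p k + t • (p (k + 1) - p k) + ε • -(Complex.I * (p (k + 1) - p k)) =
      p k + t • (p (k + 1) - p k) - ε • (Complex.I * (p (k + 1) - p k)) := by
    rw [smul_neg, ← sub_eq_add_neg]
  rw [e] at heU
  refine ⟨_, heU, a2, ?_⟩
  rcases W_val ho a2 with h1 | h1
  · exact h1
  · exfalso
    rw [h1] at a3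
    rcases W_val ho a1 with h2 | h2 <;> rw [h2] at a3 <;> norm_num at a3

/-- Off the chain and off the diagonal. -/
theorem off_both {p : ℕ → ℂ} {n i j : ℕ} (hij : i + 2 ≤ j) (hj : j < n) {z : ℂ}
    (h1 : z ∉ crv p n) (h2 : z ∉ segment ℝ (p i) (p j)) :
    z ∉ crv (inn p i j) (j - i + 1) ∧ z ∉ crv (out p i j) (n - (j - i - 1)) := by
  constructor
  · intro h3
    rcases (mem_inn hij).1 h3 with ⟨k, _, hk, hz⟩ | hz
    · exact h1 ⟨k, by omega, hz⟩
    · rw [segment_symm] at hz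
      exact h2 hz
  · intro h3
    rcases (mem_out hij hj).1 h3 with ⟨k, hk, _, hz⟩ | hz
    · exact h1 ⟨k, hk, hz⟩
    · exact h2 hz

/-- A point of the closed diagonal off the chain is an inner point. -/
theorem on_diag {p : ℕ → ℂ} {n i j : ℕ} (hi : i < n) (hj : j < n) (hD : Diag p n i j) {z : ℂ}
    (h1 : z ∉ crv p n) (h2 : z ∈ segment ℝ (p i) (p j)) : W p n z ≠ 0 := by
  have h3 : p i ≠ z := by
    rintro rfl
    exact h1 ⟨i, hi, left_mem_segment ℝ _ _⟩
  have h4 : p j ≠ z := by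
    rintro rfl
    exact h1 ⟨j, hj, left_mem_segment ℝ _ _⟩
  exact (hD z (mem_openSegment_of_ne_left_right h3 h4 h2)).2

/-- A vertex off one of the two parts is an outer point of it. -/
theorem side {p : ℕ → ℂ} {n i j m : ℕ} (h : SC p n) (ho : Ori p n 1) (hij : i + 2 ≤ j)
    (hj : j < n) (hn : j + 2 ≤ i + n) (hD : Diag p n i j) (hm : m < n) :
    (p m ∉ crv (inn p i j) (j - i + 1) → W (inn p i j) (j - i + 1) (p m) = 0) ∧
    (p m ∉ crv (out p i j) (n - (j - i - 1)) → W (out p i j) (n - (j - i - 1)) (p m) = 0) := by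
  obtain ⟨o1, o2, -, -⟩ := glue h hij hj hn hD ho
  have s1 := inn_SC h hij hj hn fun x hx => (hD x hx).1
  have s2 := out_SC h hij hj hn fun x hx => (hD x hx).1
  have key : ∀ U : Set ℂ, IsOpen U → p m ∈ U → ∃ z ∈ U, W (inn p i j) (j - i + 1) z = 0 ∧
      W (out p i j) (n - (j - i - 1)) z = 0 := by
    intro U hU hx
    obtain ⟨z, hzU, hz1, hz2⟩ := ext_near h ho hm hU hx
    have hz3 : z ∉ segment ℝ (p i) (p j) := fun h3 => on_diag (by omega) hj hD hz1 h3 hz2
    obtain ⟨c1, c2⟩ := off_both hij hj hz1 hz3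
    have h4 := W_split hij hj hz3
    rw [hz2] at h4
    refine ⟨z, hzU, ?_⟩
    rcases W_val o1 c1 with v1 | v1 <;> rcases W_val o2 c2 with v2 | v2
    · exact ⟨v1, v2⟩
    all_goals
      exfalso
      rw [v1, v2] at h4
      norm_num at h4
  constructor
  · intro hc
    obtain ⟨r, hr, hball⟩ := Metric.isOpen_iff.1
      (crv_closed (inn p i j) (j - i + 1)).isOpen_compl (p m) hc
    obtain ⟨z, hz, hz1, hz2⟩ := key _ Metric.isOpen_ball (Metric.mem_ball_self hr)
    rw [← hz1]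
    exact W_const s1.cl (convex_ball (p m) r).isPreconnected (fun y hy => hball hy)
      (Metric.mem_ball_self hr) hz
  · intro hc
    obtain ⟨r, hr, hball⟩ := Metric.isOpen_iff.1
      (crv_closed (out p i j) (n - (j - i - 1))).isOpen_compl (p m) hc
    obtain ⟨z, hz, hz1, hz2⟩ := key _ Metric.isOpen_ball (Metric.mem_ball_self hr)
    rw [← hz2]
    exact W_const s2.cl (convex_ball (p m) r).isPreconnected (fun y hy => hball hy)
      (Metric.mem_ball_self hr) hz

/-- The winding number of a chain at an endpoint of an open segment off the chain. -/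
theorem W_end {q : ℕ → ℂ} {m : ℕ} (hcl : q m = q 0) {a b x y : ℂ}
    (hS : ∀ x ∈ openSegment ℝ a b, x ∉ crv q m) (hy : y ∈ segment ℝ a b) (hy' : y ∉ crv q m)
    (hx : x ∈ openSegment ℝ a b) : W q m y = W q m x := by
  have h1 : IsPreconnected (insert y (openSegment ℝ a b)) :=
    (convex_openSegment a b).isPreconnected.subset_closure (subset_insert _ _) (by
      rw [closure_openSegment]
      exact insert_subset hy (openSegment_subset_segment ℝ a b))
  refine W_const hcl h1 ?_ (mem_insert _ _) (mem_insert_of_mem _ hx)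
  intro z hz
  rcases mem_insert_iff.1 hz with rfl | hz
  · exact hy'
  · exact hS z hz

/-- A second diagonal, disjoint from the first one, is a diagonal of one of the two parts. -/
theorem transfer {p : ℕ → ℂ} {n i j k l : ℕ} (h : SC p n) (ho : Ori p n 1) (hij : i + 2 ≤ j)
    (hj : j < n) (hn : j + 2 ≤ i + n) (hD : Diag p n i j) (hk : k < n) (hl : l < n)
    (hE : Diag p n k l) (hdis : Disjoint (openSegment ℝ (p i) (p j)) (openSegment ℝ (p k) (p l))) :
    ((i ≤ k ∧ k ≤ j) ∧ (i ≤ l ∧ l ≤ j) ∧ ∀ x ∈ openSegment ℝ (p k) (p l),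
      x ∉ crv (inn p i j) (j - i + 1) ∧ W (inn p i j) (j - i + 1) x ≠ 0) ∨
    ((k ≤ i ∨ j ≤ k) ∧ (l ≤ i ∨ j ≤ l) ∧ ∀ x ∈ openSegment ℝ (p k) (p l),
      x ∉ crv (out p i j) (n - (j - i - 1)) ∧ W (out p i j) (n - (j - i - 1)) x ≠ 0) := by
  obtain ⟨o1, o2, -, -⟩ := glue h hij hj hn hD ho
  have s1 := inn_SC h hij hj hn fun x hx => (hD x hx).1
  have s2 := out_SC h hij hj hn fun x hx => (hD x hx).1
  have hseg : ∀ x ∈ openSegment ℝ (p k) (p l), x ∉ segment ℝ (p i) (p j) := by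
    intro x hx hx'
    have h1 := (hE x hx).1
    have h3 : p i ≠ x := by
      rintro rfl
      exact h1 ⟨i, by omega, left_mem_segment ℝ _ _⟩
    have h4 : p j ≠ x := by
      rintro rfl
      exact h1 ⟨j, hj, left_mem_segment ℝ _ _⟩
    exact Set.disjoint_left.1 hdis (mem_openSegment_of_ne_left_right h3 h4 hx') hx
  have hoff := fun x (hx : x ∈ openSegment ℝ (p k) (p l)) =>
    off_both hij hj (hE x hx).1 (hseg x hx)
  have hoff1 : ∀ x ∈ openSegment ℝ (p k) (p l), x ∉ crv (inn p i j) (j - i + 1) :=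
    fun x hx => (hoff x hx).1
  have hoff2 : ∀ x ∈ openSegment ℝ (p k) (p l), x ∉ crv (out p i j) (n - (j - i - 1)) :=
    fun x hx => (hoff x hx).2
  obtain ⟨x₀, hx₀⟩ : ∃ m, m ∈ openSegment ℝ (p k) (p l) := ⟨_, mid_mem⟩
  have hpre : IsPreconnected (openSegment ℝ (p k) (p l)) := (convex_openSegment _ _).isPreconnected
  have hne : W (inn p i j) (j - i + 1) x₀ = 1 ∨ W (out p i j) (n - (j - i - 1)) x₀ = 1 := by
    have h4 := W_split hij hj (hseg x₀ hx₀)
    rcases W_val o1 (hoff1 x₀ hx₀) with v1 | v1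
    · rcases W_val o2 (hoff2 x₀ hx₀) with v2 | v2
      · exfalso
        rw [v1, v2, add_zero] at h4
        exact (hE x₀ hx₀).2 h4
      · exact Or.inr v2
    · exact Or.inl v1
  rcases hne with hW | hW
  · left
    have hv : ∀ m < n, p m ∈ segment ℝ (p k) (p l) → i ≤ m ∧ m ≤ j := by
      intro m hm hms
      by_contra hc
      have h5 : p m ∉ crv (inn p i j) (j - i + 1) := vert_inn h hij hj hD hm (by omega)
      have h6 := (side h ho hij hj hn hD hm).1 h5
      rw [W_end s1.cl hoff1 hms h5 hx₀, hW] at h6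
      exact one_ne_zero h6
    refine ⟨hv k hk (left_mem_segment ℝ _ _), hv l hl (right_mem_segment ℝ _ _), ?_⟩
    intro x hx
    refine ⟨hoff1 x hx, ?_⟩
    rw [W_const s1.cl hpre hoff1 hx hx₀, hW]
    exact one_ne_zero
  · right
    have hv : ∀ m < n, p m ∈ segment ℝ (p k) (p l) → m ≤ i ∨ j ≤ m := by
      intro m hm hms
      by_contra hc
      have h5 : p m ∉ crv (out p i j) (n - (j - i - 1)) :=
        vert_out h hij hj hD (by omega) (by omega)
      have h6 := (side h ho hij hj hn hD hm).2 h5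
      rw [W_end s2.cl hoff2 hms h5 hx₀, hW] at h6
      exact one_ne_zero h6
    refine ⟨hv k hk (left_mem_segment ℝ _ _), hv l hl (right_mem_segment ℝ _ _), ?_⟩
    intro x hx
    refine ⟨hoff2 x hx, ?_⟩
    rw [W_const s2.cl hpre hoff2 hx hx₀, hW]
    exact one_ne_zero

end MP7e112f
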