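import Pool.Agent.Lib.MP_7e112f_co_E.Side
import Pool.Agent.Lib.MP_7e112f_co_E.Ep
import Pool.Agent.Lib.MP_7e112f_co.TriMain

/-!
# MP_7e112f_co: the tree of a given triangulation
-/

open Set

namespace MP7e112f

open BT

/-- `D` is a set of pairwise disjoint inner diagonals of the chain. -/
structure NC (p : ℕ → ℂ) (n : ℕ) (D : Finset (ℕ × ℕ)) : Prop where
  lt : ∀ x ∈ D, x.1 + 2 ≤ x.2 ∧ x.2 < n ∧ x.2 + 2 ≤ x.1 + n
  diag : ∀ x ∈ D, Diag p n x.1 x.2
  disj : ∀ x ∈ D, ∀ y ∈ D, x ≠ y →
    Disjoint (openSegment ℝ (p x.1) (p x.2)) (openSegment ℝ (p y.1) (p y.2))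

/-- The new names of the vertices of `out p i j`. -/
def nm (i j k : ℕ) : ℕ := if k ≤ i then k else k - (j - i - 1)

theorem inn_at {p : ℕ → ℂ} {i j k : ℕ} (h1 : i ≤ k) (h2 : k ≤ j) : inn p i j (k - i) = p k := by
  unfold inn
  rw [if_pos (by omega)]
  congr 1
  omega

theorem out_at {p : ℕ → ℂ} {i j k : ℕ} (hij : i + 2 ≤ j) (h : k ≤ i ∨ j ≤ k) :
    out p i j (nm i j k) = p k := by
  unfold out nm
  rcases h with h | h
  · rw [if_pos h, if_pos h]
  · rw [if_neg (show ¬ k ≤ i by omega), if_neg (by omega)]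
    congr 1
    omega

theorem nm_cases {i j k : ℕ} (h : k ≤ i ∨ j ≤ k) (hij : i + 2 ≤ j) :
    (k ≤ i ∧ nm i j k = k) ∨ (j ≤ k ∧ nm i j k = k - (j - i - 1)) := by
  unfold nm
  rcases h with h | h
  · left
    exact ⟨h, if_pos h⟩
  · right
    exact ⟨h, if_neg (by omega)⟩

/-- A noncrossing set of inner diagonals has at most `n - 3` elements, and if it has `n - 3`
elements then it comes from a tree. -/
theorem tri_D : ∀ (n : ℕ) (p : ℕ → ℂ), SC p n → Ori p n 1 → ∀ D : Finset (ℕ × ℕ), NC p n D →
    D.card + 3 ≤ n ∧ (D.card + 3 = n → ∃ t : BT, t.sz + 1 = n ∧ Pos p t 0 ∧ Emb p t 0 ∧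
      rgn (crv p n) = reg p t 0 ∧ ∀ o ∈ ep t 0, n = 3 ∨ (o, o + 2) ∈ D) := by
  intro n
  induction n using Nat.strong_induction_on with
  | _ n ih =>
    intro p h ho D hNC
    rcases D.eq_empty_or_nonempty with rfl | ⟨x, hx⟩
    · have h3 := h.three
      refine ⟨by simpa using h3, fun hn => ?_⟩
      have hn3 : n = 3 := by simpa using hn.symm
      subst hn3
      obtain ⟨h1, h2⟩ := base3 h ho
      refine ⟨node leaf leaf, rfl, ⟨h1, trivial, trivial⟩, ⟨?_, trivial, trivial⟩, ?_,
        fun _ _ => Or.inl rfl⟩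
      · simp [ireg]
      · simp only [reg, sz, union_empty]
        exact h2
    · obtain ⟨i, j⟩ := x
      obtain ⟨hij, hj, hjn⟩ := hNC.lt _ hx
      have hD := hNC.diag _ hx
      simp only at hij hj hjn hD
      obtain ⟨o1, o2, hU, hdis⟩ := glue h hij hj hjn hD ho
      have s1 := inn_SC h hij hj hjn fun x hx => (hD x hx).1
      have s2 := out_SC h hij hj hjn fun x hx => (hD x hx).1
      have hne : ∀ y : ℕ × ℕ, y ≠ (i, j) → y.1 ≠ i ∨ y.2 ≠ j := by
        intro y hy
        by_contra hc
        rw [not_or, not_not, not_not] at hc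
        exact hy (Prod.ext hc.1 hc.2)
      have htr : ∀ y ∈ D, y ≠ (i, j) → _ := fun y hy hne' =>
        transfer h ho hij hj hjn hD (k := y.1) (l := y.2)
          (by have := hNC.lt y hy; omega) (hNC.lt y hy).2.1 (hNC.diag y hy)
          (hNC.disj _ hx _ hy (Ne.symm hne'))
      obtain ⟨D1, hD1⟩ : ∃ D1 : Finset (ℕ × ℕ), ∀ y, y ∈ D1 ↔ y ∈ D ∧ y ≠ (i, j) ∧
          (i ≤ y.1 ∧ y.2 ≤ j) :=
        ⟨(D.erase (i, j)).filter fun y => i ≤ y.1 ∧ y.2 ≤ j, fun y => by
          rw [Finset.mem_filter, Finset.mem_erase]; tauto⟩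
      obtain ⟨D2, hD2⟩ : ∃ D2 : Finset (ℕ × ℕ), ∀ y, y ∈ D2 ↔ y ∈ D ∧ y ≠ (i, j) ∧
          ¬ (i ≤ y.1 ∧ y.2 ≤ j) :=
        ⟨(D.erase (i, j)).filter fun y => ¬ (i ≤ y.1 ∧ y.2 ≤ j), fun y => by
          rw [Finset.mem_filter, Finset.mem_erase]; tauto⟩
      have hcard : D.card = D1.card + D2.card + 1 := by
        have e1 : D = insert (i, j) (D1 ∪ D2) := by
          ext y
          rw [Finset.mem_insert, Finset.mem_union, hD1, hD2]
          constructor
          · intro hy
            by_cases h1 : y = (i, j)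
            · exact Or.inl h1
            · by_cases h2 : i ≤ y.1 ∧ y.2 ≤ j
              · exact Or.inr (Or.inl ⟨hy, h1, h2⟩)
              · exact Or.inr (Or.inr ⟨hy, h1, h2⟩)
          · rintro (rfl | h1 | h1)
            · exact hx
            · exact h1.1
            · exact h1.1
        have e2 : (i, j) ∉ D1 ∪ D2 := by
          rw [Finset.mem_union, hD1, hD2]
          rintro (h1 | h1)
          · exact h1.2.1 rfl
          · exact h1.2.1 rfl
        have e3 : Disjoint D1 D2 := by
          rw [Finset.disjoint_left]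
          intro y h1 h2
          exact ((hD2 y).1 h2).2.2 ((hD1 y).1 h1).2.2
        have e4 := congrArg Finset.card e1
        rw [Finset.card_insert_of_notMem e2, Finset.card_union_of_disjoint e3] at e4
        exact e4
      have f1 : ∀ y ∈ D1, y.1 + 2 ≤ y.2 ∧ i ≤ y.1 ∧ y.2 ≤ j ∧ (y.1 ≠ i ∨ y.2 ≠ j) ∧
          ∀ x ∈ openSegment ℝ (p y.1) (p y.2),
            x ∉ crv (inn p i j) (j - i + 1) ∧ W (inn p i j) (j - i + 1) x ≠ 0 := by
        intro y hy
        obtain ⟨hy1, hy2, hy3, hy4⟩ := (hD1 y).1 hy
        have hl := hNC.lt y hy1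
        have hn := hne y hy2
        refine ⟨hl.1, hy3, hy4, hn, ?_⟩
        rcases htr y hy1 hy2 with ht | ht
        · exact ht.2.2
        · exfalso
          obtain ⟨t1, t2, -⟩ := ht
          omega
      have f2 : ∀ y ∈ D2, y.1 + 2 ≤ y.2 ∧ y.2 < n ∧ y.2 + 2 ≤ y.1 + n ∧ (y.1 ≤ i ∨ j ≤ y.1) ∧
          (y.2 ≤ i ∨ j ≤ y.2) ∧ (y.1 ≠ i ∨ y.2 ≠ j) ∧
          ∀ x ∈ openSegment ℝ (p y.1) (p y.2),
            x ∉ crv (out p i j) (n - (j - i - 1)) ∧ W (out p i j) (n - (j - i - 1)) x ≠ 0 := by
        intro y hy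
        obtain ⟨hy1, hy2, hy3⟩ := (hD2 y).1 hy
        have hl := hNC.lt y hy1
        have hn := hne y hy2
        rcases htr y hy1 hy2 with ht | ht
        · exfalso
          obtain ⟨t1, t2, -⟩ := ht
          omega
        · exact ⟨hl.1, hl.2.1, hl.2.2, ht.1, ht.2.1, hn, ht.2.2⟩
      -- the images
      have inj1 : Set.InjOn (fun y : ℕ × ℕ => (y.1 - i, y.2 - i)) (D1 : Set (ℕ × ℕ)) := by
        intro y hy y' hy' he
        have a1 := f1 y hy
        have a2 := f1 y' hy'
        simp only [Prod.mk.injEq] at he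
        exact Prod.ext (by omega) (by omega)
      have inj2 : Set.InjOn (fun y : ℕ × ℕ => (nm i j y.1, nm i j y.2))
          (D2 : Set (ℕ × ℕ)) := by
        intro y hy y' hy' he
        obtain ⟨-, -, -, a1, a2, -⟩ := f2 y hy
        obtain ⟨-, -, -, b1, b2, -⟩ := f2 y' hy'
        simp only [Prod.mk.injEq] at he
        have c1 := nm_cases a1 hij
        have c2 := nm_cases a2 hij
        have c3 := nm_cases b1 hij
        have c4 := nm_cases b2 hij
        exact Prod.ext (by omega) (by omega)
      have N1 : NC (inn p i j) (j - i + 1) (D1.image fun y => (y.1 - i, y.2 - i)) := by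
        refine ⟨?_, ?_, ?_⟩
        · intro x hx
          obtain ⟨y, hy, rfl⟩ := Finset.mem_image.1 hx
          have := f1 y hy
          simp only
          omega
        · intro x hx
          obtain ⟨y, hy, rfl⟩ := Finset.mem_image.1 hx
          obtain ⟨a1, a2, a3, a4, a5⟩ := f1 y hy
          simp only [Diag]
          rw [inn_at a2 (by omega), inn_at (by omega) a3]
          exact a5
        · intro x hx x' hx' hxx
          obtain ⟨y, hy, rfl⟩ := Finset.mem_image.1 hx
          obtain ⟨y', hy', rfl⟩ := Finset.mem_image.1 hx'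
          obtain ⟨a1, a2, a3, a4, a5⟩ := f1 y hy
          obtain ⟨b1, b2, b3, b4, b5⟩ := f1 y' hy'
          simp only
          rw [inn_at a2 (by omega), inn_at (by omega) a3, inn_at b2 (by omega),
            inn_at (by omega) b3]
          exact hNC.disj _ ((hD1 y).1 hy).1 _ ((hD1 y').1 hy').1 (fun he => hxx (by rw [he]))
      have N2 : NC (out p i j) (n - (j - i - 1)) (D2.image fun y => (nm i j y.1, nm i j y.2)) := by
        refine ⟨?_, ?_, ?_⟩
        · intro x hx
          obtain ⟨y, hy, rfl⟩ := Finset.mem_image.1 hx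
          obtain ⟨a1, a2, a3, a4, a5, a6, -⟩ := f2 y hy
          have c1 := nm_cases a4 hij
          have c2 := nm_cases a5 hij
          simp only
          omega
        · intro x hx
          obtain ⟨y, hy, rfl⟩ := Finset.mem_image.1 hx
          obtain ⟨a1, a2, a3, a4, a5, a6, a7⟩ := f2 y hy
          simp only [Diag]
          rw [out_at hij a4, out_at hij a5]
          exact a7
        · intro x hx x' hx' hxx
          obtain ⟨y, hy, rfl⟩ := Finset.mem_image.1 hx
          obtain ⟨y', hy', rfl⟩ := Finset.mem_image.1 hx'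
          obtain ⟨a1, a2, a3, a4, a5, a6, a7⟩ := f2 y hy
          obtain ⟨b1, b2, b3, b4, b5, b6, b7⟩ := f2 y' hy'
          simp only
          rw [out_at hij a4, out_at hij a5, out_at hij b4, out_at hij b5]
          exact hNC.disj _ ((hD2 y).1 hy).1 _ ((hD2 y').1 hy').1 (fun he => hxx (by rw [he]))
      obtain ⟨I1, J1⟩ := ih (j - i + 1) (by omega) _ s1 o1 _ N1
      obtain ⟨I2, J2⟩ := ih (n - (j - i - 1)) (by omega) _ s2 o2 _ N2
      rw [Finset.card_image_of_injOn inj1] at I1 J1
      rw [Finset.card_image_of_injOn inj2] at I2 J2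
      refine ⟨by clear J1 J2; omega, fun hn => ?_⟩
      have K1 : D1.card + 3 = j - i + 1 := by clear J1 J2; omega
      have K2 : D2.card + 3 = n - (j - i - 1) := by clear J1 J2; omega
      obtain ⟨u, hu, pu, eu, ru, earu⟩ := J1 K1
      obtain ⟨t, ht, pt, et, rt, eart⟩ := J2 K2
      clear J1 J2
      have husz : u.sz = j - i := by omega
      have hcong := reg_congr (p := p) (q := inn p i j) u (o := 0) (o' := i) (by
        intro k hk
        simp only [inn, Nat.zero_add]
        rw [if_pos (by omega)])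
      obtain ⟨c1, c2, c3, c4⟩ := hcong
      have hg := graft_reg (p := p) (q := out p i j) (i := i) (u := u)
        (by intro k hk; simp only [out]; rw [if_pos hk])
        (by intro k hk; simp only [out]; rw [if_neg (by omega), husz]) t 0 (by omega)
        (by omega)
      obtain ⟨g1, g2, g3, g4⟩ := hg
      have hdisj : Disjoint (ireg (out p i j) t 0) (ireg p u i) := by
        rw [Set.disjoint_iff_inter_eq_empty]
        by_contra hne
        obtain ⟨z, ⟨hz1, hz2⟩, hz3⟩ := crv_int' (p := inn p i j) (n := j - i + 1)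
          (p' := out p i j) (n' := n - (j - i - 1))
          ((ireg_open (out p i j) t 0).inter (ireg_open p u i))
          (Set.nonempty_iff_ne_empty.2 hne)
        have hz4 : z ∈ rgn (crv (inn p i j) (j - i + 1)) := by
          rw [ru, c1]
          exact ireg_subset _ _ _ hz2
        have hz5 : z ∈ rgn (crv (out p i j) (n - (j - i - 1))) := by
          rw [rt]
          exact ireg_subset _ _ _ hz1
        exact hdis z hz3.1 hz3.2 hz4 hz5
      refine ⟨graft t i u, ?_, ?_, ?_, ?_, ?_⟩
      · rw [graft_sz t i u (by omega)]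
        omega
      · exact g3 pt (c3.1 pu)
      · exact g4 et (c4.1 eu) hdisj
      · have : graft t (i - 0) u = graft t i u := by simp
        rw [this] at g1
        rw [hU, ru, rt, c1, g1, union_comm]
      · intro o hoe
        right
        rcases ep_graft (by omega) t 0 i o (by omega) hoe with h1 | ⟨h1, h2⟩ | ⟨y, h1, h2, h3⟩
        · obtain ⟨y, hy, hyo⟩ := ep_shift u 0 i o h1
          have hr := ep_range u 0 y hy
          rcases earu y hy with h4 | h4
          · have e1 : o = i := by omega
            have e2 : o + 2 = j := by omega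
            rw [e2, e1]
            exact hx
          · obtain ⟨z, hz, hze⟩ := Finset.mem_image.1 h4
            have a := f1 z hz
            simp only [Prod.mk.injEq] at hze
            have e1 : (o, o + 2) = z := Prod.ext (by simp only; omega) (by simp only; omega)
            rw [e1]
            exact ((hD1 z).1 hz).1
        · rcases eart o h1 with h4 | h4
          · omega
          · obtain ⟨z, hz, hze⟩ := Finset.mem_image.1 h4
            obtain ⟨-, -, -, a1, a2, -⟩ := f2 z hz
            simp only [Prod.mk.injEq] at hze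
            have b1 := nm_cases a1 hij
            have b2 := nm_cases a2 hij
            have e1 : (o, o + 2) = z := Prod.ext (by simp only; omega) (by simp only; omega)
            rw [e1]
            exact ((hD2 z).1 hz).1
        · have hr := ep_range t 0 y h1
          rcases eart y h1 with h4 | h4
          · omega
          · obtain ⟨z, hz, hze⟩ := Finset.mem_image.1 h4
            obtain ⟨-, -, -, a1, a2, -⟩ := f2 z hz
            simp only [Prod.mk.injEq] at hze
            have b1 := nm_cases a1 hij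
            have b2 := nm_cases a2 hij
            have e1 : (o, o + 2) = z := Prod.ext (by simp only; omega) (by simp only; omega)
            rw [e1]
            exact ((hD2 z).1 hz).1

end MP7e112f
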